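import Pool.Agent.Y17.N.Defs
import Pool.Agent.Z994.BIL2A

/-!
# Project Z17N: the pairs with a common line and a given inner product
-/

set_option autoImplicit false

namespace Pool.Agent.Y153.ZN

open Finset Matrix
open Pool.Agent.Z700 (V3 vec cp cp7 Ln)
open Pool.Agent.Z994 (dot3 Co L count7 co_dot neg_vec ln_neg)
open Pool.Agent.Y17.N

theorem dot7 {b : ℤ} {q : V3 × V3} (hq : q.1 ⬝ᵥ q.2 = b) :
    (q.1 0 : ZMod 7) * q.2 0 + (q.1 1 : ZMod 7) * q.2 1 + (q.1 2 : ZMod 7) * q.2 2 = (b : ZMod 7) := by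
  rw [← hq, dot3]
  push_cast
  ring

theorem mem_vec {n : ℤ} {v : V3} (h : v ∈ vec n) : v ⬝ᵥ v = n := Pool.Agent.Z994.mem_vec h

open Classical in
/-- the sum over the pairs with a common line -/
theorem core {N1 N2 b : ℤ} {β1 β2 : ZMod 7} (h1 : β1 ≠ 0) (h2 : β2 ≠ 0)
    (hN1 : β1 ^ 2 = -(N1 : ZMod 7)) (hN2 : β2 ^ 2 = -(N2 : ZMod 7))
    (hb : (b : ZMod 7) = -(β1 * β2)) (f : V3 × V3 → ℤ) (hf : ∀ v w, f (-v, -w) = f (v, w)) :
    2 * ∑ q ∈ (vec N1 ×ˢ vec N2).filter (fun q => q.1 ⬝ᵥ q.2 = b ∧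
        ∃ n : Fin 3 → ZMod 7, n ≠ 0 ∧ Ln n β1 q.1 ∧ Ln n β2 q.2), f q =
      ∑ q ∈ (vec N1 ×ˢ vec N2).filter (fun q => q.1 ⬝ᵥ q.2 = b), f q +
      ∑ q ∈ (vec N1 ×ˢ vec N2).filter (fun q => q.1 ⬝ᵥ q.2 = b ∧
        ∀ i, β2 * (q.1 i : ZMod 7) = β1 * (q.2 i : ZMod 7)), f q := by
  let Cq : ZMod 7 → ZMod 7 → V3 × V3 → Prop := fun a c q =>
    Co (fun i => (q.1 i : ZMod 7)) (fun i => (q.2 i : ZMod 7)) a c
  have e0 : ∑ q ∈ (vec N1 ×ˢ vec N2).filter (fun q => q.1 ⬝ᵥ q.2 = b ∧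
        ∃ n : Fin 3 → ZMod 7, n ≠ 0 ∧ Ln n β1 q.1 ∧ Ln n β2 q.2), f q =
      ∑ q ∈ (vec N1 ×ˢ vec N2).filter (fun q => q.1 ⬝ᵥ q.2 = b ∧ Cq β1 β2 q), f q := by
    refine sum_congr ?_ fun _ _ => rfl
    exact filter_congr fun q _ => Iff.rfl
  have hmap : ∀ (a c : ZMod 7) (q : V3 × V3), Cq a c q → Cq (-a) (-c) (-q.1, -q.2) := by
    rintro a c q ⟨n, hn, l1, l2⟩
    refine ⟨n, hn, ?_, ?_⟩
    · have : Ln n (-a) (-q.1) := by
        rw [ln_neg, neg_neg]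
        exact l1
      exact this
    · have : Ln n (-c) (-q.2) := by
        rw [ln_neg, neg_neg]
        exact l2
      exact this
  have hinv : ∑ q ∈ (vec N1 ×ˢ vec N2).filter (fun q => q.1 ⬝ᵥ q.2 = b ∧ Cq β1 β2 q), f q =
      ∑ q ∈ (vec N1 ×ˢ vec N2).filter (fun q => q.1 ⬝ᵥ q.2 = b ∧ Cq (-β1) (-β2) q), f q := by
    refine sum_bij' (fun q _ => (-q.1, -q.2)) (fun q _ => (-q.1, -q.2)) ?_ ?_ ?_ ?_ ?_
    · intro q hq
      rw [mem_filter, mem_product] at hq ⊢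
      refine ⟨⟨neg_vec hq.1.1, neg_vec hq.1.2⟩, ?_, hmap _ _ q hq.2.2⟩
      show -q.1 ⬝ᵥ -q.2 = b
      rw [_root_.neg_dotProduct, _root_.dotProduct_neg, neg_neg]
      exact hq.2.1
    · intro q hq
      rw [mem_filter, mem_product] at hq ⊢
      refine ⟨⟨neg_vec hq.1.1, neg_vec hq.1.2⟩, ?_, ?_⟩
      · show -q.1 ⬝ᵥ -q.2 = b
        rw [_root_.neg_dotProduct, _root_.dotProduct_neg, neg_neg]
        exact hq.2.1
      · have := hmap _ _ q hq.2.2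
        rw [neg_neg, neg_neg] at this
        exact this
    · intro q _
      simp
    · intro q _
      simp
    · intro q _
      exact (hf q.1 q.2).symm
  rw [e0, two_mul]
  nth_rewrite 2 [hinv]
  simp only [← filter_filter]
  rw [sum_filter (fun q => Cq β1 β2 q), sum_filter (fun q => Cq (-β1) (-β2) q),
    sum_filter (fun q : V3 × V3 => ∀ i, β2 * (q.1 i : ZMod 7) = β1 * (q.2 i : ZMod 7)),
    ← sum_add_distrib, ← sum_add_distrib]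
  refine sum_congr rfl fun q hq => ?_
  rw [mem_filter, mem_product] at hq
  have n1 : (q.1 0 : ZMod 7) * q.1 0 + (q.1 1 : ZMod 7) * q.1 1 + (q.1 2 : ZMod 7) * q.1 2 =
      -β1 ^ 2 := by
    have := dot7 (q := (q.1, q.1)) (mem_vec hq.1.1)
    rw [this, hN1, neg_neg]
  have n2 : (q.2 0 : ZMod 7) * q.2 0 + (q.2 1 : ZMod 7) * q.2 1 + (q.2 2 : ZMod 7) * q.2 2 =
      -β2 ^ 2 := by
    have := dot7 (q := (q.2, q.2)) (mem_vec hq.1.2)
    rw [this, hN2, neg_neg]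
  have := count7 (v := fun i => (q.1 i : ZMod 7)) (w := fun i => (q.2 i : ZMod 7)) h1 h2
    n1 n2 ((dot7 hq.2).trans hb)
  have k1 : (if Cq β1 β2 q then f q else 0) = ((if Cq β1 β2 q then 1 else 0 : ℕ) : ℤ) * f q := by
    split_ifs <;> simp
  have k2 : (if Cq (-β1) (-β2) q then f q else 0) =
      ((if Cq (-β1) (-β2) q then 1 else 0 : ℕ) : ℤ) * f q := by
    split_ifs <;> simp
  have k3 : (if ∀ i, β2 * (q.1 i : ZMod 7) = β1 * (q.2 i : ZMod 7) then f q else 0) =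
      ((if ∀ i, β2 * (q.1 i : ZMod 7) = β1 * (q.2 i : ZMod 7) then 1 else 0 : ℕ) : ℤ) * f q := by
    split_ifs <;> simp
  rw [k1, k2, k3, ← add_mul, ← Nat.cast_add]
  have k4 : ((if Cq β1 β2 q then 1 else 0 : ℕ) + (if Cq (-β1) (-β2) q then 1 else 0)) =
      1 + if ∀ i, β2 * (q.1 i : ZMod 7) = β1 * (q.2 i : ZMod 7) then 1 else 0 := by
    convert this using 2
  rw [k4]
  push_cast
  ring

open Classical in
theorem core0 {N1 N2 b : ℤ} {β1 β2 : ZMod 7} (h1 : β1 ≠ 0) (hb : ¬ (b : ZMod 7) = -(β1 * β2)) :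
    (vec N1 ×ˢ vec N2).filter (fun q => q.1 ⬝ᵥ q.2 = b ∧
        ∃ n : Fin 3 → ZMod 7, n ≠ 0 ∧ Ln n β1 q.1 ∧ Ln n β2 q.2) = ∅ := by
  rw [filter_eq_empty_iff]
  rintro q - ⟨hq, hC⟩
  apply hb
  rw [← dot7 hq]
  exact co_dot (v := fun i => (q.1 i : ZMod 7)) (w := fun i => (q.2 i : ZMod 7)) h1 hC

open Classical in
lemma pl_filter (N1 N2 : ℤ) (β1 β2 : ZMod 7) (b : ℤ) :
    ((PL N1 N2 β1 β2).filter fun q => q.1 ⬝ᵥ q.2 = b) =
      (vec N1 ×ˢ vec N2).filter (fun q => q.1 ⬝ᵥ q.2 = b ∧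
        ∃ n : Fin 3 → ZMod 7, n ≠ 0 ∧ Ln n β1 q.1 ∧ Ln n β2 q.2) := by
  ext q
  unfold PL
  simp only [mem_filter]
  tauto

open Classical in
/-- LB -/
theorem t_LB : Pool.Agent.Y17.N.S_LB := by
  intro N1 N2 β1 β2 h1 h2 hN1 hN2 b
  have e : ((PL N1 N2 β1 β2).filter fun q => q.1 ⬝ᵥ q.2 = b).card =
      ((vec N1 ×ˢ vec N2).filter (fun q => q.1 ⬝ᵥ q.2 = b ∧
        ∃ n : Fin 3 → ZMod 7, n ≠ 0 ∧ Ln n β1 q.1 ∧ Ln n β2 q.2)).card := by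
    rw [← pl_filter]
  rw [e]
  by_cases hb : (b : ZMod 7) = -(β1 * β2)
  · rw [if_pos hb]
    have key := core (N1 := N1) (N2 := N2) h1 h2 hN1 hN2 hb (fun _ => 1)
      (fun _ _ => rfl)
    simp only [sum_const, nsmul_eq_mul, mul_one] at key
    have k1 : ((vec N1 ×ˢ vec N2).filter (fun q => q.1 ⬝ᵥ q.2 = b)).card = cp N1 b N2 := by
      unfold cp
      congr 1
    have k2 : ((vec N1 ×ˢ vec N2).filter (fun q => q.1 ⬝ᵥ q.2 = b ∧
        ∀ i, β2 * (q.1 i : ZMod 7) = β1 * (q.2 i : ZMod 7))).card = cp7 N1 b N2 β1 β2 := by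
      unfold cp7
      congr 1
    rw [k1, k2] at key
    exact_mod_cast key
  · rw [if_neg hb]
    have key := core0 (N1 := N1) (N2 := N2) h1 hb
    rw [key, card_empty, mul_zero]

end Pool.Agent.Y153.ZN
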